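import Pool.Agent.Lib.H97I.QIPOwn

/-!
# The quenched invariance principle for long-range percolation with finite second moment

For every `d ≥ 3` and every symmetric kernel `p : ℤ^d → [0,1]` with `p 0 = 0`, `p = 1` on nearest
neighbours and finite second moment, in particular for every kernel with decay exponent
`s > d + 2`, the simple random walk on the long-range percolation graph satisfies the quenched
invariance principle.
-/

set_option autoImplicit false

open MeasureTheory ProbabilityTheory Filter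
open scoped ENNReal NNReal Topology BigOperators

namespace Pool.Agent.Results.MP_f50824_pr.FiniteVariance

universe u v w

/-- The Euclidean norm of a lattice point. -/
noncomputable def euclNorm {d : ℕ} (x : Fin d → ℤ) : ℝ := Real.sqrt (∑ i, (x i : ℝ) ^ 2)

/-- The standing assumptions on the kernel `p : ℤ^d → [0,1]`: it is symmetric, `p 0 = 0` and
`p x = 1` whenever `|x| = 1`. -/
structure IsKernel {d : ℕ} (p : (Fin d → ℤ) → ℝ) : Prop where
  nonneg : ∀ x, 0 ≤ p x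
  le_one : ∀ x, p x ≤ 1
  symm : ∀ x, p x = p (-x)
  zero : p 0 = 0
  nearest : ∀ x, euclNorm x = 1 → p x = 1

/-- Finite second moment: `∑_x |x|^2 p(x) < ∞`. -/
def FiniteSecondMoment {d : ℕ} (p : (Fin d → ℤ) → ℝ) : Prop :=
  Summable fun x => euclNorm x ^ 2 * p x

/-- Decay exponent `s`: `p(x) = |x|^(-s+o(1))` as `|x| → ∞`. -/
def HasDecayExponent {d : ℕ} (p : (Fin d → ℤ) → ℝ) (s : ℝ) : Prop :=
  ∀ ε : ℝ, 0 < ε → ∃ r : ℝ, ∀ x, r ≤ euclNorm x →
    euclNorm x ^ (-s - ε) ≤ p x ∧ p x ≤ euclNorm x ^ (-s + ε)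

/-- `G` is the long-range percolation graph with kernel `p`, on the probability space `(Ω, P)`:
the edge `{x,y}` is present with probability `p(y - x)`, independently over the edges. -/
structure IsPercolationGraph {d : ℕ} {Ω : Type u} [MeasurableSpace Ω] (P : Measure Ω)
    (p : (Fin d → ℤ) → ℝ) (G : Ω → SimpleGraph (Fin d → ℤ)) : Prop where
  measurable : ∀ x y, MeasurableSet {ω | (G ω).Adj x y}
  prob : ∀ x y, x ≠ y → P {ω | (G ω).Adj x y} = ENNReal.ofReal (p (y - x))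
  indep : iIndepSet (fun e : Sym2 (Fin d → ℤ) => {ω | e ∈ (G ω).edgeSet}) P

open Classical in
/-- `Z 0, Z 1, ...` is the simple random walk on the graph `H` started at `0`: each step goes to a
uniformly chosen neighbour of the current vertex. -/
structure IsSimpleRandomWalk {d : ℕ} {Ω₁ : Type v} [MeasurableSpace Ω₁]
    (H : SimpleGraph (Fin d → ℤ)) (Q : Measure Ω₁) (Z : ℕ → Ω₁ → (Fin d → ℤ)) : Prop where
  measurable : ∀ n, Measurable (Z n)
  start : ∀ᵐ ω ∂Q, Z 0 ω = 0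
  step : ∀ (n : ℕ) (z : ℕ → (Fin d → ℤ)),
    Q {ω | ∀ i ≤ n + 1, Z i ω = z i} =
      Q {ω | ∀ i ≤ n, Z i ω = z i} *
        (if H.Adj (z n) (z (n + 1)) then ((H.neighborSet (z n)).ncard : ℝ≥0∞)⁻¹ else 0)

open Matrix in
/-- `W` is a Brownian motion in `ℝ^d` with covariance matrix `S`, started at `0`: its paths are
continuous and its finite dimensional distributions are centred Gaussian with
`E[W_a(s) W_b(t)] = min(s,t) S_ab`, written with characteristic functions. -/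
structure IsBrownianMotion {d : ℕ} {Ω₂ : Type w} [MeasurableSpace Ω₂]
    (S : Matrix (Fin d) (Fin d) ℝ) (Q' : Measure Ω₂) (W : ℝ≥0 → Ω₂ → (Fin d → ℝ)) : Prop where
  measurable : ∀ t, Measurable (W t)
  continuous : ∀ ω, Continuous fun t => W t ω
  charFun : ∀ (k : ℕ) (t : Fin k → ℝ≥0) (u : Fin k → (Fin d → ℝ)),
    ∫ ω, Complex.exp (Complex.I * ((∑ j, u j ⬝ᵥ W (t j) ω : ℝ) : ℂ)) ∂Q' =
      Complex.exp (-((∑ j, ∑ l, min (t j : ℝ) (t l : ℝ) * (u j ⬝ᵥ S *ᵥ u l) : ℝ) : ℂ) / 2)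

/-- The rescaled and linearly interpolated path
`B^(n)(t) = n^(-1/2) (z_⌊tn⌋ + (tn - ⌊tn⌋) (z_(⌊tn⌋+1) - z_⌊tn⌋))`. -/
noncomputable def rescaled {d : ℕ} (z : ℕ → (Fin d → ℤ)) (n : ℕ) (t : ℝ) : Fin d → ℝ :=
  fun i => 1 / Real.sqrt n *
    ((z ⌊t * n⌋₊ i : ℝ) + (t * n - ⌊t * n⌋₊) * ((z (⌊t * n⌋₊ + 1) i : ℝ) - (z ⌊t * n⌋₊ i : ℝ)))

theorem rescaled_eq {d : ℕ} (z : ℕ → (Fin d → ℤ)) (n : ℕ) (t : ℝ) :
    rescaled z n t = Lib.QIP.scaled z n t := by
  funext i
  simp only [rescaled, Lib.QIP.scaled, Pi.smul_apply, Pi.add_apply, Pi.sub_apply, smul_eq_mul]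

theorem continuous_rescaled {d : ℕ} (z : ℕ → (Fin d → ℤ)) (n : ℕ) (T : ℝ) :
    Continuous fun t : Set.Icc (0 : ℝ) T => rescaled z n t := by
  have h := (Lib.QIP.WL.XC d T n z).continuous
  refine h.congr fun t => ?_
  rw [rescaled_eq]
  exact (Lib.QIP.scaled_eq_lerp z n t.1).symm

/-- `B^(n)` on `[0,T]` as an element of `C([0,T], ℝ^d)`. -/
noncomputable def rescaledPath {d : ℕ} (T : ℝ) (n : ℕ) (z : ℕ → (Fin d → ℤ)) :
    C(Set.Icc (0 : ℝ) T, Fin d → ℝ) :=
  ⟨fun t => rescaled z n t, continuous_rescaled z n T⟩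

/-- The restriction of a continuous path to `[0,T]`, as an element of `C([0,T], ℝ^d)`. -/
noncomputable def restrictPath {d : ℕ} (T : ℝ) (f : ℝ≥0 → (Fin d → ℝ)) (hf : Continuous f) :
    C(Set.Icc (0 : ℝ) T, Fin d → ℝ) :=
  ⟨fun t => f ⟨t.1, t.2.1⟩, hf.comp (Continuous.subtype_mk continuous_subtype_val _)⟩

/-- Convergence in law on `C([0,T], ℝ^d)` (uniform topology and its Borel `σ`-algebra) of the
rescaled walk `B^(n)` to the process `W`. -/
def ConvergesInLaw {d : ℕ} (T : ℝ) {Ω₁ : Type v} [MeasurableSpace Ω₁] (Q : Measure Ω₁)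
    [IsProbabilityMeasure Q] (Z : ℕ → Ω₁ → (Fin d → ℤ)) {Ω₂ : Type w} [MeasurableSpace Ω₂]
    (Q' : Measure Ω₂) [IsProbabilityMeasure Q'] (W : ℝ≥0 → Ω₂ → (Fin d → ℝ))
    (hW : ∀ ω, Continuous fun t => W t ω) : Prop :=
  letI : MeasurableSpace C(Set.Icc (0 : ℝ) T, Fin d → ℝ) := borel _
  haveI : BorelSpace C(Set.Icc (0 : ℝ) T, Fin d → ℝ) := ⟨rfl⟩
  TendstoInDistribution (fun (n : ℕ) (ω : Ω₁) => rescaledPath T n (fun k => Z k ω)) atTop
    (fun ω => restrictPath T (fun t => W t ω) (hW ω)) (fun _ => Q) Q'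

/-- The quenched invariance principle for the random graph `G`: there is a non-degenerate (positive
definite) deterministic matrix `S` such that for almost every realization `G ω` of the graph, for
every simple random walk `Z` on `G ω` started at `0`, every Brownian motion `W` with covariance
matrix `S` and every `T > 0`, the rescaled walks `B^(n)` converge in law to `W` on
`C([0,T], ℝ^d)`; and such walks and such a Brownian motion exist. -/
def QuenchedInvariancePrinciple {d : ℕ} {Ω : Type u} [MeasurableSpace Ω] (P : Measure Ω)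
    (G : Ω → SimpleGraph (Fin d → ℤ)) : Prop :=
  ∃ S : Matrix (Fin d) (Fin d) ℝ, S.PosDef ∧
    (∃ (Ω₂ : Type) (_ : MeasurableSpace Ω₂) (Q' : Measure Ω₂) (_ : IsProbabilityMeasure Q')
      (W : ℝ≥0 → Ω₂ → (Fin d → ℝ)), IsBrownianMotion S Q' W) ∧
    ∀ᵐ ω ∂P,
      (∃ (Ω₁ : Type) (_ : MeasurableSpace Ω₁) (Q : Measure Ω₁) (_ : IsProbabilityMeasure Q)
        (Z : ℕ → Ω₁ → (Fin d → ℤ)), IsSimpleRandomWalk (G ω) Q Z) ∧
      ∀ (Ω₁ : Type v) [MeasurableSpace Ω₁] (Q : Measure Ω₁) [IsProbabilityMeasure Q]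
        (Z : ℕ → Ω₁ → (Fin d → ℤ)), IsSimpleRandomWalk (G ω) Q Z →
      ∀ (Ω₂ : Type w) [MeasurableSpace Ω₂] (Q' : Measure Ω₂) [IsProbabilityMeasure Q']
        (W : ℝ≥0 → Ω₂ → (Fin d → ℝ)) (hW : IsBrownianMotion S Q' W) (T : ℝ), 0 < T →
      ConvergesInLaw T Q Z Q' W hW.continuous

/-! ### Proofs -/

theorem sq_euclNorm {d : ℕ} (x : Fin d → ℤ) : euclNorm x ^ 2 = ∑ i, (x i : ℝ) ^ 2 :=
  Real.sq_sqrt (Finset.sum_nonneg fun _ _ => sq_nonneg _)

theorem euclNorm_nonneg {d : ℕ} (x : Fin d → ℤ) : 0 ≤ euclNorm x := Real.sqrt_nonneg _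

theorem n1_cast {d : ℕ} (x : Fin d → ℤ) : ((Lib.QIP.n1 x : ℤ) : ℝ) = ∑ i, |(x i : ℝ)| := by
  simp [Lib.QIP.n1]

theorem sq_n1_le {d : ℕ} (x : Fin d → ℤ) :
    ((Lib.QIP.n1 x : ℤ) : ℝ) ^ 2 ≤ d * euclNorm x ^ 2 := by
  rw [n1_cast, sq_euclNorm]
  have h := sq_sum_le_card_mul_sum_sq (s := Finset.univ) (f := fun i => |(x i : ℝ)|)
  simpa using h

theorem euclNorm_eq_one {d : ℕ} (x : Fin d → ℤ) (h : Lib.QIP.n1 x = 1) : euclNorm x = 1 := by
  have h1 : ∀ i, |x i| ≤ 1 := by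
    intro i
    rw [← h]
    exact Finset.single_le_sum (f := fun i => |x i|) (fun i _ => abs_nonneg _) (Finset.mem_univ i)
  have h2 : ∀ i, (x i) ^ 2 = |x i| := by
    intro i
    have h3 := abs_nonneg (x i)
    have h4 := h1 i
    rw [← sq_abs]
    have h5 : |x i| = 0 ∨ |x i| = 1 := by omega
    rcases h5 with h5 | h5 <;> rw [h5] <;> norm_num
  have h3 : (∑ i, (x i : ℝ) ^ 2) = 1 := by
    have h4 : (∑ i, (x i) ^ 2) = 1 := by
      rw [Finset.sum_congr rfl fun i _ => h2 i]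
      exact h
    exact_mod_cast h4
  rw [euclNorm, h3, Real.sqrt_one]

theorem one_le_euclNorm {d : ℕ} {x : Fin d → ℤ} (hx : x ≠ 0) : 1 ≤ euclNorm x := by
  obtain ⟨i, hi⟩ := Function.ne_iff.1 hx
  have h1 : (1 : ℤ) ≤ ∑ j, (x j) ^ 2 := by
    have h2 : (x i) ^ 2 ≤ ∑ j, (x j) ^ 2 :=
      Finset.single_le_sum (f := fun j => (x j) ^ 2) (fun j _ => sq_nonneg _) (Finset.mem_univ i)
    have h3 : 0 < (x i) ^ 2 := by
      have : x i ≠ 0 := hi
      positivity
    omega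
  have h2 : (1 : ℝ) ≤ ∑ j, (x j : ℝ) ^ 2 := by exact_mod_cast h1
  rw [euclNorm]
  exact Real.one_le_sqrt.2 h2

/-- A kernel with decay exponent `s > d + 2` has finite second moment. -/
theorem finiteSecondMoment_of_decay {d : ℕ} (hd : 0 < d) {s : ℝ} (hs : (d : ℝ) + 2 < s)
    {p : (Fin d → ℤ) → ℝ} (hp : IsKernel p) (h : HasDecayExponent p s) :
    FiniteSecondMoment p := by
  have hd' : (0 : ℝ) < d := by exact_mod_cast hd
  set ε : ℝ := (s - d - 2) / 2 with hε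
  have hε0 : 0 < ε := by
    rw [hε]
    linarith
  obtain ⟨r, hr⟩ := h ε hε0
  have hs1 := (Lib.QIP.summable_n1 hd hε0).mul_left
    ((1 + (max r 1) ^ ((d : ℝ) + ε + 2)) * Real.sqrt d ^ ((d : ℝ) + ε))
  refine Summable.of_nonneg_of_le (fun x => mul_nonneg (sq_nonneg _) (hp.nonneg x)) ?_ hs1
  intro x
  by_cases hx : x = 0
  · subst hx
    have h0 : Lib.QIP.n1 (0 : Fin d → ℤ) = 0 := by simp [Lib.QIP.n1]
    rw [h0, hp.zero, mul_zero, Int.cast_zero, Real.zero_rpow (by linarith), mul_zero]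
  · have h1 : (1 : ℝ) ≤ euclNorm x := one_le_euclNorm hx
    have hpos : (0 : ℝ) < euclNorm x := by linarith
    have hM0 : 0 ≤ (max r 1) ^ ((d : ℝ) + ε + 2) := by positivity
    have hn0 : 0 ≤ euclNorm x ^ (-(d : ℝ) - ε) := by positivity
    have hn1 : (1 : ℝ) ≤ ((Lib.QIP.n1 x : ℤ) : ℝ) := by exact_mod_cast Lib.QIP.one_le_n1 hx
    -- comparison of the two norms
    have hcmp : euclNorm x ^ (-(d : ℝ) - ε) ≤
        Real.sqrt d ^ ((d : ℝ) + ε) * ((Lib.QIP.n1 x : ℤ) : ℝ) ^ (-(d : ℝ) - ε) := by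
      have h2 : ((Lib.QIP.n1 x : ℤ) : ℝ) ≤ Real.sqrt d * euclNorm x := by
        have h3 := sq_n1_le x
        have h4 : (Real.sqrt d * euclNorm x) ^ 2 = d * euclNorm x ^ 2 := by
          rw [mul_pow, Real.sq_sqrt hd'.le]
        rw [← h4] at h3
        exact le_of_sq_le_sq h3 (by positivity)
      have hsd : 0 < Real.sqrt d := Real.sqrt_pos.2 hd'
      have h5 : (Real.sqrt d * euclNorm x) ^ (-(d : ℝ) - ε) ≤
          ((Lib.QIP.n1 x : ℤ) : ℝ) ^ (-(d : ℝ) - ε) :=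
        Real.rpow_le_rpow_of_nonpos (by linarith) h2 (by linarith)
      rw [Real.mul_rpow hsd.le hpos.le] at h5
      have h6 : Real.sqrt d ^ ((d : ℝ) + ε) * Real.sqrt d ^ (-(d : ℝ) - ε) = 1 := by
        rw [← Real.rpow_add hsd]
        have : (d : ℝ) + ε + (-(d : ℝ) - ε) = 0 := by ring
        rw [this, Real.rpow_zero]
      calc euclNorm x ^ (-(d : ℝ) - ε) = (Real.sqrt d ^ ((d : ℝ) + ε) *
            Real.sqrt d ^ (-(d : ℝ) - ε)) * euclNorm x ^ (-(d : ℝ) - ε) := by rw [h6, one_mul]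
        _ = Real.sqrt d ^ ((d : ℝ) + ε) *
            (Real.sqrt d ^ (-(d : ℝ) - ε) * euclNorm x ^ (-(d : ℝ) - ε)) := by ring
        _ ≤ _ := mul_le_mul_of_nonneg_left h5 (by positivity)
    have hkey : euclNorm x ^ 2 * p x ≤
        (1 + (max r 1) ^ ((d : ℝ) + ε + 2)) * euclNorm x ^ (-(d : ℝ) - ε) := by
      rcases le_or_gt r (euclNorm x) with hle | hlt
      · have h2 := (hr x hle).2
        have h3 : euclNorm x ^ 2 * p x ≤ euclNorm x ^ 2 * euclNorm x ^ (-s + ε) :=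
          mul_le_mul_of_nonneg_left h2 (sq_nonneg _)
        have h4 : euclNorm x ^ 2 * euclNorm x ^ (-s + ε) = euclNorm x ^ (-(d : ℝ) - ε) := by
          rw [← Real.rpow_natCast, ← Real.rpow_add hpos]
          congr 1
          rw [hε]
          push_cast
          ring
        rw [h4] at h3
        nlinarith
      · have h2 : euclNorm x ≤ max r 1 := hlt.le.trans (le_max_left _ _)
        have h3 : euclNorm x ^ 2 * p x ≤ euclNorm x ^ 2 :=
          mul_le_of_le_one_right (sq_nonneg _) (hp.le_one x)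
        have h4 : euclNorm x ^ 2 =
            euclNorm x ^ ((d : ℝ) + ε + 2) * euclNorm x ^ (-(d : ℝ) - ε) := by
          rw [← Real.rpow_natCast, ← Real.rpow_add hpos]
          congr 1
          push_cast
          ring
        have h5 : euclNorm x ^ ((d : ℝ) + ε + 2) ≤ (max r 1) ^ ((d : ℝ) + ε + 2) :=
          Real.rpow_le_rpow hpos.le h2 (by positivity)
        have h6 := mul_le_mul_of_nonneg_right h5 hn0
        linarith
    refine hkey.trans ?_
    have h7 : 0 ≤ 1 + (max r 1) ^ ((d : ℝ) + ε + 2) := by linarith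
    have h8 := mul_le_mul_of_nonneg_left hcmp h7
    rw [mul_assoc]
    exact h8

/-- The kernel as a model of the library. -/
noncomputable def toModel {d : ℕ} {p : (Fin d → ℤ) → ℝ} (hp : IsKernel p)
    (h2 : FiniteSecondMoment p) : Lib.QIP.Model d where
  p := p
  nonneg := hp.nonneg
  le_one := hp.le_one
  symm := fun x => (hp.symm x).symm
  zero := hp.zero
  nn := fun x hx => hp.nearest x (euclNorm_eq_one x hx)
  sum2 := by
    refine Summable.of_nonneg_of_le (fun x => mul_nonneg (sq_nonneg _) (hp.nonneg x)) ?_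
      (h2.mul_left (d : ℝ))
    intro x
    rw [← mul_assoc]
    exact mul_le_mul_of_nonneg_right (sq_n1_le x) (hp.nonneg x)

open Classical in
theorem step_eq {d : ℕ} (hd : 0 < d) {Ω : Type u} {G : Ω → SimpleGraph (Fin d → ℤ)} {ω : Ω}
    (h : Lib.QIP.Good (Lib.H97I.conf G ω)) (x y : Fin d → ℤ) :
    ENNReal.ofReal ((Lib.QIP.cond (Lib.H97I.conf G ω)).c x y /
      (Lib.QIP.cond (Lib.H97I.conf G ω)).deg x) =
      if (G ω).Adj x y then (((G ω).neighborSet x).ncard : ℝ≥0∞)⁻¹ else 0 := by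
  have hdeg := (Lib.QIP.cond (Lib.H97I.conf G ω)).deg_pos hd x
  rw [Lib.H97I.deg_conf h] at hdeg ⊢
  rw [Lib.H97I.c_conf h]
  by_cases hxy : (G ω).Adj x y
  · rw [if_pos hxy, if_pos hxy, one_div, ENNReal.ofReal_inv_of_pos hdeg, ENNReal.ofReal_natCast]
  · rw [if_neg hxy, if_neg hxy, zero_div, ENNReal.ofReal_zero]

theorem exists_srw {d : ℕ} (hd : 0 < d) {Ω : Type u} {G : Ω → SimpleGraph (Fin d → ℤ)} {ω : Ω}
    (h : Lib.QIP.Good (Lib.H97I.conf G ω)) :
    ∃ (Ω₁ : Type) (_ : MeasurableSpace Ω₁) (Q : Measure Ω₁) (_ : IsProbabilityMeasure Q)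
        (Z : ℕ → Ω₁ → (Fin d → ℤ)), IsSimpleRandomWalk (G ω) Q Z := by
  obtain ⟨ν, hν⟩ := Lib.QIP.exists_walk hd (Lib.QIP.cond (Lib.H97I.conf G ω))
  refine ⟨ℕ → (Fin d → ℤ), inferInstance, ν 0, hν.prob 0, fun k w => w k,
    fun n => measurable_pi_apply n, hν.start hd 0, fun n z => ?_⟩
  rw [← step_eq hd h, Lib.H97I.cyl_nat hν, Lib.H97I.cyl_nat hν, Finset.prod_range_succ,
    ← mul_assoc, ENNReal.ofReal_mul]
  refine mul_nonneg ?_ (Finset.prod_nonneg fun i _ => div_nonneg (Lib.QIP.Cond.nonneg _ _ _)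
    (Lib.QIP.Cond.deg_nonneg _ _))
  split_ifs <;> norm_num

open Matrix in
theorem isBM_iff {d : ℕ} {S : Matrix (Fin d) (Fin d) ℝ} (u v : Fin d → ℝ) :
    u ⬝ᵥ S *ᵥ v = ∑ a, ∑ b, u a * S a b * v b := by
  simp only [dotProduct, Matrix.mulVec, Finset.mul_sum, mul_assoc]

theorem exists_brownian {d : ℕ} {S : Matrix (Fin d) (Fin d) ℝ} (hS : S.PosDef) :
    ∃ (Ω₂ : Type) (_ : MeasurableSpace Ω₂) (Q' : Measure Ω₂) (_ : IsProbabilityMeasure Q')
      (W : ℝ≥0 → Ω₂ → (Fin d → ℝ)), IsBrownianMotion S Q' W := by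
  obtain ⟨Ω', mΩ', P', hP', W, hW⟩ := Lib.QIP.exists_bm d S hS
  refine ⟨Ω', mΩ', P', hP', fun t => W t, fun t => hW.1 t,
    fun ω => (hW.2.1 ω).comp NNReal.continuous_coe, fun k t u => ?_⟩
  have h := hW.2.2 k (fun j => (t j : ℝ)) u (fun j => (t j).2)
  simp only [isBM_iff]
  exact h

/-- The walk on a good realization converges in law. -/
theorem converges {d : ℕ} (hd : 0 < d) {Ω : Type u} {G : Ω → SimpleGraph (Fin d → ℤ)} {ω : Ω}
    (h : Lib.QIP.Good (Lib.H97I.conf G ω)) {S : Matrix (Fin d) (Fin d) ℝ} (hS : S.PosDef)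
    (h1 : Lib.QIP.ResConv (Lib.QIP.cond (Lib.H97I.conf G ω)) S)
    (h2 : Lib.QIP.ExitSmall (Lib.QIP.cond (Lib.H97I.conf G ω)))
    {Ω₁ : Type v} [MeasurableSpace Ω₁] (Q : Measure Ω₁) [IsProbabilityMeasure Q]
    (Z : ℕ → Ω₁ → (Fin d → ℤ)) (hZ : IsSimpleRandomWalk (G ω) Q Z)
    {Ω₂ : Type w} [MeasurableSpace Ω₂] (Q' : Measure Ω₂) [IsProbabilityMeasure Q']
    (W : ℝ≥0 → Ω₂ → (Fin d → ℝ)) (hW : IsBrownianMotion S Q' W) (T : ℝ) (hT : 0 < T) :
    ConvergesInLaw T Q Z Q' W hW.continuous := by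
  classical
  obtain ⟨ν, hν⟩ := Lib.QIP.exists_walk hd (Lib.QIP.cond (Lib.H97I.conf G ω))
  have hlaw : Q.map (fun ω k => Z k ω) = ν 0 := by
    refine Lib.H97I.law_walk hν Q Z hZ.measurable hZ.start fun n z => ?_
    rw [step_eq hd h]
    exact hZ.step n z
  have hmZ : Measurable (fun ω k => Z k ω) := measurable_pi_lambda _ hZ.measurable
  have hprob : IsProbabilityMeasure (ν 0) := hν.prob 0
  obtain ⟨Ω', mΩ', P', hP', Φ, W', hΦ, rfl, hBM, hWW⟩ :=
    Lib.H97I.exists_canonical (S := S) Q' W hW.measurable hW.continuous (by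
      intro k t u
      have h := hW.charFun k t u
      simp only [isBM_iff] at h
      exact h)
  have osc := Lib.QIP.osc_of_exit hd hν h2
  let _ : MeasurableSpace C(Set.Icc (0 : ℝ) T, Fin d → ℝ) := borel _
  have _ : BorelSpace C(Set.Icc (0 : ℝ) T, Fin d → ℝ) := ⟨rfl⟩
  have hmain := Lib.QIP.WL.main_dist (T := T) (hν.start hd 0) osc
    (fun m t θ ht => Lib.QIP.fdd_of_res hd hν hS h1 osc m t θ ht) hBM hT.le
  have hXm : ∀ n, Measurable (Lib.QIP.WL.XC d T n) := fun n => Lib.QIP.WL.XC_meas n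
  have hWm : Measurable (Lib.QIP.WL.WC d T W' hBM.2.1) := Lib.QIP.WL.WC_meas W' hBM.1 hBM.2.1
  have e1 : ∀ n, (fun ω : Ω₁ => rescaledPath T n (fun k => Z k ω)) =
      Lib.QIP.WL.XC d T n ∘ fun ω k => Z k ω := by
    intro n
    funext ω
    refine ContinuousMap.ext fun t => ?_
    show rescaled (fun k => Z k ω) n t = _
    rw [rescaled_eq]
    exact Lib.QIP.scaled_eq_lerp (fun k => Z k ω) n t.1
  have e2 : (fun ω : Ω₂ => restrictPath T (fun t => W t ω) (hW.continuous ω)) =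
      Lib.QIP.WL.WC d T W' hBM.2.1 ∘ Φ := by
    funext ω
    refine ContinuousMap.ext fun t => ?_
    exact (hWW ⟨t.1, t.2.1⟩ ω).symm
  have m1 : ∀ n, Measurable (fun ω : Ω₁ => rescaledPath T n (fun k => Z k ω)) := by
    intro n
    rw [e1]
    exact (hXm n).comp hmZ
  have m2 : Measurable (fun ω : Ω₂ => restrictPath T (fun t => W t ω) (hW.continuous ω)) := by
    rw [e2]
    exact hWm.comp hΦ
  refine ⟨fun n => (m1 n).aemeasurable, m2.aemeasurable, ?_⟩
  rw [ProbabilityMeasure.tendsto_iff_forall_integral_tendsto]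
  intro f
  have hf := ProbabilityMeasure.tendsto_iff_forall_integral_tendsto.1 hmain.tendsto f
  simp only [ProbabilityMeasure.coe_mk] at hf ⊢
  have l1 : ∀ n, Q.map (fun ω : Ω₁ => rescaledPath T n (fun k => Z k ω)) =
      (ν 0).map (Lib.QIP.WL.XC d T n) := by
    intro n
    rw [e1, ← hlaw, Measure.map_map (hXm n) hmZ]
  have l2 : Q'.map (fun ω : Ω₂ => restrictPath T (fun t => W t ω) (hW.continuous ω)) =
      (Q'.map Φ).map (Lib.QIP.WL.WC d T W' hBM.2.1) := by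
    rw [e2, Measure.map_map hWm hΦ]
  simp only [l1, l2]
  exact hf

/-- **Quenched invariance principle.** For every `d ≥ 3` and every kernel `p` (symmetric, `p 0 = 0`,
`p = 1` on nearest neighbours) which has finite second moment or a decay exponent `s > d + 2`, the
simple random walk on the long-range percolation graph with kernel `p` satisfies the quenched
invariance principle. -/
theorem result (d : ℕ) (hd : 3 ≤ d) (p : (Fin d → ℤ) → ℝ) (hp : IsKernel p)
    (h : FiniteSecondMoment p ∨ ∃ s : ℝ, (d : ℝ) + 2 < s ∧ HasDecayExponent p s)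
    (Ω : Type u) [MeasurableSpace Ω] (P : Measure Ω) [IsProbabilityMeasure P]
    (G : Ω → SimpleGraph (Fin d → ℤ)) (hG : IsPercolationGraph P p G) :
    QuenchedInvariancePrinciple.{u, v, w} P G := by
  have hd0 : 0 < d := by omega
  have h2 : FiniteSecondMoment p := by
    rcases h with h | ⟨s, hs, h⟩
    · exact h
    · exact finiteSecondMoment_of_decay hd0 hs hp h
  obtain ⟨S, hS, hae⟩ := Lib.QIP.key d hd (toModel hp h2)
  refine ⟨S, hS, exists_brownian hS, ?_⟩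
  have hlaw : P.map (Lib.H97I.conf G) = (toModel hp h2).μ :=
    Lib.H97I.law_conf (toModel hp h2) P hG.measurable hG.indep hG.prob
  have hae2 : ∀ᵐ η ∂(P.map (Lib.H97I.conf G)),
      (Lib.QIP.ResConv (Lib.QIP.cond η) S ∧ Lib.QIP.ExitSmall (Lib.QIP.cond η)) ∧
        Lib.QIP.Good η := by
    rw [hlaw]
    filter_upwards [hae, (toModel hp h2).ae_good] with η h3 h4
    exact ⟨h3, h4⟩
  have hae3 := ae_of_ae_map (Lib.H97I.measurable_conf hG.measurable).aemeasurable hae2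
  filter_upwards [hae3] with ω hω
  refine ⟨exists_srw hd0 hω.2, ?_⟩
  intro Ω₁ _ Q _ Z hZ Ω₂ _ Q' _ W hW T hT
  exact converges hd0 hω.2 hS hω.1.1 hω.1.2 Q Z hZ Q' W hW T hT

end Pool.Agent.Results.MP_f50824_pr.FiniteVariance
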